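import Mathlib

namespace Pool.Agent.H284_cs

open Finset

/-- `x` is a sum of terms of `a` with distinct indices from `Λ`. -/
def P (a : ℕ → ℕ) (Λ : Finset ℕ) (x : ℕ) : Prop := ∃ G ⊆ Λ, ∑ i ∈ G, a i = x

lemma P_mono {a : ℕ → ℕ} {Λ Λ' : Finset ℕ} (h : Λ ⊆ Λ') {x : ℕ} (hx : P a Λ x) : P a Λ' x := by
  obtain ⟨G, hG, hs⟩ := hx
  exact ⟨G, hG.trans h, hs⟩

lemma P_le {a : ℕ → ℕ} {Λ : Finset ℕ} {x : ℕ} (hx : P a Λ x) : x ≤ ∑ i ∈ Λ, a i := by
  obtain ⟨G, hG, hs⟩ := hx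
  rw [← hs]
  exact sum_le_sum_of_subset hG

lemma P_symm {a : ℕ → ℕ} {Λ : Finset ℕ} {x : ℕ} (hx : P a Λ x) :
    P a Λ (∑ i ∈ Λ, a i - x) := by
  obtain ⟨G, hG, hs⟩ := hx
  refine ⟨Λ \ G, sdiff_subset, ?_⟩
  have := sum_sdiff (f := a) hG
  omega

lemma P_symm' {a : ℕ → ℕ} {Λ : Finset ℕ} {x y : ℕ} (h : x + y = ∑ i ∈ Λ, a i) (hx : P a Λ x) :
    P a Λ y := by
  have := P_symm hx
  rwa [show ∑ i ∈ Λ, a i - x = y by omega] at this

lemma P_insert_of {a : ℕ → ℕ} {Λ : Finset ℕ} {e x : ℕ} (he : e ∉ Λ) (hx : P a Λ x) :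
    P a (insert e Λ) (x + a e) := by
  obtain ⟨G, hG, hs⟩ := hx
  refine ⟨insert e G, insert_subset_insert _ hG, ?_⟩
  rw [sum_insert (fun h => he (hG h)), hs, add_comm]

lemma P_insert_of' {a : ℕ → ℕ} {Λ : Finset ℕ} {e x : ℕ} (he : e ∉ Λ) (hle : a e ≤ x)
    (hx : P a Λ (x - a e)) : P a (insert e Λ) x := by
  have := P_insert_of he hx
  rwa [Nat.sub_add_cancel hle] at this

lemma P_insert_cases {a : ℕ → ℕ} {Λ : Finset ℕ} {e x : ℕ} (hx : P a (insert e Λ) x) :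
    P a Λ x ∨ (a e ≤ x ∧ P a Λ (x - a e)) := by
  obtain ⟨G, hG, hs⟩ := hx
  by_cases h : e ∈ G
  · right
    have h1 := add_sum_erase G a h
    refine ⟨by omega, G.erase e, ?_, by omega⟩
    intro i hi
    have h2 := hG (mem_of_mem_erase hi)
    rw [mem_insert] at h2
    exact h2.resolve_left (ne_of_mem_erase hi)
  · left
    refine ⟨G, ?_, hs⟩
    intro i hi
    have h2 := hG hi
    rw [mem_insert] at h2
    exact h2.resolve_left (fun h3 => h (h3 ▸ hi))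

/-- Consecutive elements of `W` differ by at most `lam`. -/
def conn (lam : ℕ) (W : Finset ℕ) : Prop :=
  ∀ w ∈ W, (∃ w' ∈ W, w < w') → ∃ w' ∈ W, w < w' ∧ w' ≤ w + lam

lemma conn_barrier {lam : ℕ} {W : Finset ℕ} (hW : conn lam W) {z1 z2 : ℕ}
    (hz : z1 + lam ≤ z2 + 1) (hdis : ∀ w ∈ W, w < z1 ∨ z2 < w) :
    (∀ w ∈ W, w < z1) ∨ (∀ w ∈ W, z2 < w) := by
  by_contra hcon
  push Not at hcon
  obtain ⟨⟨u, hu, hu1⟩, ⟨v, hv, hv1⟩⟩ := hcon
  have hu2 : z2 < u := (hdis u hu).resolve_left (by omega)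
  have hv2 : v < z1 := (hdis v hv).resolve_right (by omega)
  have hne : (W.filter (fun w => w < z1)).Nonempty := ⟨v, mem_filter.mpr ⟨hv, hv2⟩⟩
  set y := (W.filter (fun w => w < z1)).max' hne with hy
  have hymem := max'_mem _ hne
  rw [← hy, mem_filter] at hymem
  obtain ⟨w', hw', h1, h2⟩ := hW y hymem.1 ⟨u, hu, by omega⟩
  rcases hdis w' hw' with h3 | h3
  · have := le_max' (W.filter (fun w => w < z1)) w' (mem_filter.mpr ⟨hw', h3⟩)
    omega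
  · omega

lemma conn_sub {lam c : ℕ} {W : Finset ℕ} (hW : conn lam W) (hc : ∀ w ∈ W, c ≤ w) :
    conn lam (W.image (fun w => w - c)) ∧ (W.image (fun w => w - c)).card = W.card := by
  constructor
  · intro x hx hx'
    rw [mem_image] at hx
    obtain ⟨w, hw, rfl⟩ := hx
    obtain ⟨x', hx1, hx2⟩ := hx'
    rw [mem_image] at hx1
    obtain ⟨w1, hw1, rfl⟩ := hx1
    have e1 := hc w hw
    have e2 := hc w1 hw1
    obtain ⟨w2, hw2, h1, h2⟩ := hW w hw ⟨w1, hw1, by omega⟩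
    have e3 := hc w2 hw2
    exact ⟨w2 - c, mem_image.mpr ⟨w2, hw2, rfl⟩, by omega, by omega⟩
  · apply card_image_of_injOn
    intro x hx y hy hxy
    have e1 := hc x hx
    have e2 := hc y hy
    simp only at hxy
    omega

/-- Removing one index: a connected set of missing numbers stays, or is shifted. -/
lemma stepdown {a : ℕ → ℕ} {lam lo h e : ℕ} {Λ W : Finset ℕ} (he : e ∉ Λ) (hlam0 : 0 < lam)
    (hcov : ∀ y, lo ≤ y → y < h → P a Λ y) (hlam : lo + lam ≤ h)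
    (hσ : 2 * lo + a e ≤ ∑ i ∈ Λ, a i + 1) (hW : conn lam W)
    (hmiss : ∀ w ∈ W, lo ≤ w ∧ w + lo ≤ ∑ i ∈ insert e Λ, a i ∧ ¬ P a (insert e Λ) w) :
    ∃ W' : Finset ℕ, conn lam W' ∧ W'.card = W.card ∧
      ∀ w ∈ W', lo ≤ w ∧ w + lo ≤ ∑ i ∈ Λ, a i ∧ ¬ P a Λ w := by
  have hins : ∑ i ∈ insert e Λ, a i = a e + ∑ i ∈ Λ, a i := sum_insert he
  have hh : h ≤ ∑ i ∈ Λ, a i + 1 := by
    have := P_le (hcov (h - 1) (by omega) (by omega))
    omega
  have hbar : ∀ w ∈ W, w < ∑ i ∈ Λ, a i + 1 - h ∨ ∑ i ∈ Λ, a i - lo < w := by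
    intro w hw
    by_contra hcon
    push Not at hcon
    apply (hmiss w hw).2.2
    apply P_mono (subset_insert e Λ)
    apply P_symm' (x := ∑ i ∈ Λ, a i - w) (by omega)
    apply hcov <;> omega
  rcases conn_barrier hW (by omega) hbar with h1 | h1
  · refine ⟨W, hW, rfl, fun w hw => ?_⟩
    have h2 := hmiss w hw
    have h3 := h1 w hw
    exact ⟨h2.1, by omega, fun h4 => h2.2.2 (P_mono (subset_insert e Λ) h4)⟩
  · obtain ⟨h2, h3⟩ := conn_sub (c := a e) hW (fun w hw => by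
      have := h1 w hw
      omega)
    refine ⟨_, h2, h3, fun x hx => ?_⟩
    rw [mem_image] at hx
    obtain ⟨w, hw, rfl⟩ := hx
    have h4 := hmiss w hw
    have h5 := h1 w hw
    refine ⟨by omega, by omega, fun h6 => h4.2.2 (P_insert_of' he (by omega) h6)⟩

end Pool.Agent.H284_cs
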