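import Mathlib
import Pool.Agent.H284_cs.Basic

namespace Pool.Agent.H284_cs

open Finset

/-- There is a connected set of at least `m` missing numbers in the middle of `P a Λ`. -/
def big (a : ℕ → ℕ) (lam N : ℕ) (Λ : Finset ℕ) (m : ℕ) : Prop :=
  ∃ W : Finset ℕ, conn lam W ∧ m ≤ W.card ∧
    ∀ w ∈ W, N ≤ w ∧ w + N ≤ ∑ i ∈ Λ, a i ∧ ¬ P a Λ w

section

variable {a : ℕ → ℕ} {N : ℕ}

lemma F1 (ha : Monotone a) (hN : ∀ x, N ≤ x → ∃ G : Finset ℕ, ∑ i ∈ G, a i = x) {K y : ℕ}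
    (hy : N ≤ y) (hK : y < a K) : P a (range K) y := by
  obtain ⟨G, hG⟩ := hN y hy
  refine ⟨G, ?_, hG⟩
  intro i hi
  rw [mem_range]
  by_contra hcon
  have h1 : a K ≤ a i := ha (by omega)
  have h2 : a i ≤ ∑ i ∈ G, a i := single_le_sum (fun _ _ => Nat.zero_le _) hi
  omega

lemma exists_missing (a : ℕ → ℕ) (N : ℕ) (Λ : Finset ℕ) : ∃ y, N ≤ y ∧ ¬ P a Λ y := by
  refine ⟨N + ∑ i ∈ Λ, a i + 1, by omega, fun h => ?_⟩
  have := P_le h
  omega

open Classical in
/-- The first missing number that is at least `N`. -/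
noncomputable def gf (a : ℕ → ℕ) (N : ℕ) (Λ : Finset ℕ) : ℕ := Nat.find (exists_missing a N Λ)

lemma gf_spec (a : ℕ → ℕ) (N : ℕ) (Λ : Finset ℕ) : N ≤ gf a N Λ ∧ ¬ P a Λ (gf a N Λ) := by
  classical
  unfold gf
  exact Nat.find_spec (exists_missing a N Λ)

lemma gf_min {a : ℕ → ℕ} {N : ℕ} {Λ : Finset ℕ} {y : ℕ} (h1 : N ≤ y) (h2 : y < gf a N Λ) :
    P a Λ y := by
  classical
  by_contra hcon
  unfold gf at h2
  exact Nat.find_min (exists_missing a N Λ) h2 ⟨h1, hcon⟩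

lemma le_gf {a : ℕ → ℕ} {N : ℕ} {Λ : Finset ℕ} {z : ℕ} (h : ∀ y, N ≤ y → y < z → P a Λ y) :
    z ≤ gf a N Λ := by
  by_contra hcon
  push Not at hcon
  obtain ⟨h1, h2⟩ := gf_spec a N Λ
  exact h2 (h _ h1 hcon)

lemma gf_ge (ha : Monotone a) (hN : ∀ x, N ≤ x → ∃ G : Finset ℕ, ∑ i ∈ G, a i = x) (K : ℕ) :
    a K ≤ gf a N (range K) := le_gf (fun _ h1 h2 => F1 ha hN h1 h2)

/-- If a missing number lies in the middle then twice the first one is at most the total sum. -/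
lemma two_gf {Λ : Finset ℕ} (h : ∃ y, N ≤ y ∧ y + N ≤ ∑ i ∈ Λ, a i ∧ ¬ P a Λ y) :
    2 * gf a N Λ ≤ ∑ i ∈ Λ, a i ∧ gf a N Λ + N ≤ ∑ i ∈ Λ, a i := by
  obtain ⟨y, h1, h2, h3⟩ := h
  have e1 : gf a N Λ ≤ y := by
    by_contra hcon
    exact h3 (gf_min h1 (by omega))
  have e2 : gf a N Λ ≤ ∑ i ∈ Λ, a i - y := by
    by_contra hcon
    apply h3
    apply P_symm' (x := ∑ i ∈ Λ, a i - y) (by omega)
    exact gf_min (N := N) (by omega) (by omega)
  omega

/-- One step down for initial segments. -/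
lemma big_down (ha : Monotone a) (hN : ∀ x, N ≤ x → ∃ G : Finset ℕ, ∑ i ∈ G, a i = x)
    (hNpos : 0 < N) {K m : ℕ} (hK : 3 * N ≤ a K) (hσ : 2 * a K ≤ ∑ i ∈ range K, a i)
    (h : big a (2 * N) N (range (K + 1)) m) : big a (2 * N) N (range K) m := by
  obtain ⟨W, h1, h2, h3⟩ := h
  rw [range_add_one] at h3
  obtain ⟨W', e1, e2, e3⟩ := stepdown (lo := N) (h := a K) (lam := 2 * N) (e := K)
    notMem_range_self (by omega) (fun y hy1 hy2 => F1 ha hN hy1 hy2) (by omega) (by omega) h1 h3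
  exact ⟨W', e1, by omega, e3⟩

/-- The union of two translates. -/
lemma conn_union {lam c δ : ℕ} {W : Finset ℕ} (hW : conn lam W) (hne : W.Nonempty)
    (hδ : 0 < δ) (hδ' : δ ≤ lam) (hc : ∀ w ∈ W, c + δ ≤ w) :
    conn lam (W.image (fun w => w - (c + δ)) ∪ W.image (fun w => w - c)) ∧
      W.card + 1 ≤ (W.image (fun w => w - (c + δ)) ∪ W.image (fun w => w - c)).card := by
  constructor
  · intro x hx hx'
    rw [mem_union] at hx
    rcases hx with hx | hx
    · rw [mem_image] at hx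
      obtain ⟨w, hw, rfl⟩ := hx
      have := hc w hw
      exact ⟨w - c, mem_union_right _ (mem_image.mpr ⟨w, hw, rfl⟩), by omega, by omega⟩
    · rw [mem_image] at hx
      obtain ⟨w, hw, rfl⟩ := hx
      have e0 := hc w hw
      obtain ⟨x', hx1, hx2⟩ := hx'
      have : ∃ w' ∈ W, w < w' := by
        rw [mem_union, mem_image, mem_image] at hx1
        rcases hx1 with ⟨w1, hw1, rfl⟩ | ⟨w1, hw1, rfl⟩
        · have := hc w1 hw1
          exact ⟨w1, hw1, by omega⟩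
        · have := hc w1 hw1
          exact ⟨w1, hw1, by omega⟩
      obtain ⟨w', hw', e1, e2⟩ := hW w hw this
      have := hc w' hw'
      exact ⟨w' - c, mem_union_right _ (mem_image.mpr ⟨w', hw', rfl⟩), by omega, by omega⟩
  · obtain ⟨_, h2⟩ := conn_sub (c := c + δ) hW hc
    rw [← h2]
    have hmax := max'_mem W hne
    have hnot : W.max' hne - c ∉ W.image (fun w => w - (c + δ)) := by
      intro h
      rw [mem_image] at h
      obtain ⟨w, hw, hw'⟩ := h
      have e1 := le_max' W w hw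
      have e2 := hc w hw
      omega
    have hin : W.max' hne - c ∈ W.image (fun w => w - c) := mem_image.mpr ⟨_, hmax, rfl⟩
    apply Nat.succ_le_of_lt
    apply card_lt_card
    refine ⟨subset_union_left, fun h => hnot (h (mem_union_right _ hin))⟩

end

end Pool.Agent.H284_cs
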