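import Mathlib
import Pool.Agent.H284_cs.LemmaF

namespace Pool.Agent.H284_cs

open Finset

variable {a : ℕ → ℕ} {N : ℕ}

/-- If all the terms with index in `[q, K)` are equal to `v`, sums below `2 v` use at most one. -/
lemma equal_terms {q K v z : ℕ} (hall : ∀ j, q ≤ j → j < K → a j = v) (hz : P a (range K) z)
    (hzv : z < 2 * v) (hqv : a q = v) : P a (range (q + 1)) z := by
  obtain ⟨G, hG, hs⟩ := hz
  have h1 := sum_filter_add_sum_filter_not G (fun i => i < q) a
  have h2 : ∑ i ∈ G with ¬ i < q, a i = (G.filter (fun i => ¬ i < q)).card * v := by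
    rw [← smul_eq_mul]
    apply sum_eq_card_nsmul
    intro i hi
    rw [mem_filter] at hi
    have := mem_range.mp (hG hi.1)
    exact hall i (by omega) this
  have hG1 : G.filter (fun i => i < q) ⊆ range q := by
    intro i hi
    rw [mem_filter] at hi
    exact mem_range.mpr hi.2
  have hcard : (G.filter (fun i => ¬ i < q)).card ≤ 1 := by
    by_contra hcon
    rw [not_le] at hcon
    have : 2 * v ≤ (G.filter (fun i => ¬ i < q)).card * v := Nat.mul_le_mul_right v hcon
    omega
  rw [range_add_one]
  rcases Nat.le_one_iff_eq_zero_or_eq_one.mp hcard with h | h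
  · apply P_mono (subset_insert _ _)
    exact ⟨_, hG1, by rw [h] at h2; omega⟩
  · apply P_insert_of' notMem_range_self
    · rw [hqv]
      rw [h] at h2
      omega
    · exact ⟨_, hG1, by rw [h] at h2; omega⟩

lemma defective (ha : Monotone a) (hunb : ∀ B, ∃ i, B ≤ a i)
    (hN : ∀ x, N ≤ x → ∃ G : Finset ℕ, ∑ i ∈ G, a i = x) (hNpos : 0 < N) {q : ℕ}
    (hg : 6 * N ≤ gf a N (range q)) (hv : 4 * N ≤ a q)
    (hσ : 2 * gf a N (range q) ≤ ∑ i ∈ range q, a i)
    (hdef : ∃ z, N ≤ z ∧ z < gf a N (range q) + a q ∧ ¬ P a (range (q + 1)) z) :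
    ∃ K, q < K ∧ ∀ m, 1 ≤ m → big a (2 * N) N (range K) m → big a (2 * N) N (range q) (m + 1) := by
  set g := gf a N (range q) with hgdef
  set v := a q with hvdef
  have hvg : v ≤ g := gf_ge ha hN q
  have hcovq : ∀ y, N ≤ y → y < g → P a (range q) y := fun y h1 h2 => gf_min h1 h2
  have hcov1 : ∀ y, v + N ≤ y → y < v + g → P a (range (q + 1)) y := by
    intro y h1 h2
    rw [range_add_one]
    apply P_insert_of' notMem_range_self
    · omega
    · exact hcovq _ (by omega) (by omega)
  obtain ⟨z, hz1, hz2, hz3⟩ := hdef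
  have hzg : g ≤ z := by
    by_contra hcon
    apply hz3
    apply P_mono (range_subset_range.mpr (Nat.le_succ q))
    exact hcovq z hz1 (by omega)
  have hzv : z < v + N := by
    by_contra hcon
    exact hz3 (hcov1 z (by omega) (by omega))
  -- the end of the phase
  have hex : ∃ K, ∀ y, N ≤ y → y < g + N → P a (range K) y := by
    obtain ⟨K, hK⟩ := hunb (g + N)
    exact ⟨K, fun y h1 h2 => F1 ha hN h1 (by omega)⟩
  classical
  obtain ⟨K, hK, hKmin⟩ : ∃ K, (∀ y, N ≤ y → y < g + N → P a (range K) y) ∧
      ∀ j < K, ¬ ∀ y, N ≤ y → y < g + N → P a (range j) y :=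
    ⟨Nat.find hex, Nat.find_spec hex, fun j hj => Nat.find_min hex hj⟩
  have hqK : q + 1 < K := by
    by_contra hcon
    push Not at hcon
    exact hz3 (P_mono (range_subset_range.mpr hcon) (hK z hz1 (by omega)))
  have hlow : ∀ j, q ≤ j → v ≤ a j := fun j hj => ha hj
  have hup : ∀ j, j < K → a j < g + N := by
    intro j hj
    have h1 := hKmin j hj
    push Not at h1
    obtain ⟨y, hy1, hy2, hy3⟩ := h1
    by_contra hcon
    exact hy3 (F1 ha hN hy1 (by omega))
  obtain ⟨w0, hw1, hw2, hw3⟩ : ∃ w0, q < w0 ∧ w0 < K ∧ v < a w0 := by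
    by_contra hcon
    push Not at hcon
    apply hz3
    apply equal_terms (K := K) (v := v) _ (hK z hz1 (by omega)) (by omega) rfl
    intro j h1 h2
    rcases h1.lt_or_eq with h3 | h3
    · have e1 := hcon j h3 h2
      have e2 := hlow j h1
      omega
    · rw [← h3]
  have hw4 : a w0 < g + N := hup w0 hw2
  have hTsum : ∑ i ∈ insert w0 (range (q + 1)), a i = a w0 + (∑ i ∈ range q, a i + v) := by
    rw [sum_insert (by rw [mem_range]; omega), sum_range_succ]
  refine ⟨K, by omega, fun m hm hbig => ?_⟩
  -- going down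
  have hdown : ∀ k j, j + k = K → q + 1 ≤ j → ∃ W : Finset ℕ, conn (2 * N) W ∧ m ≤ W.card ∧
      ∀ w ∈ W, v + N ≤ w ∧ w + (v + N) ≤ ∑ i ∈ insert w0 (range j), a i ∧
        ¬ P a (insert w0 (range j)) w := by
    intro k
    induction k with
    | zero =>
      intro j hj _
      rw [add_zero] at hj
      subst hj
      obtain ⟨W, h1, h2, h3⟩ := hbig
      have hins : insert w0 (range j) = range j := insert_eq_of_mem (mem_range.mpr hw2)
      rw [hins]
      refine ⟨W, h1, h2, fun w hw => ?_⟩
      obtain ⟨e1, e2, e3⟩ := h3 w hw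
      have hcov : ∀ y, N ≤ y → y < v + g → P a (range j) y := by
        intro y hy1 hy2
        by_cases hy3 : y < g + N
        · exact hK y hy1 hy3
        · exact P_mono (range_subset_range.mpr (by omega)) (hcov1 y (by omega) hy2)
      have e4 : v + g ≤ w := by
        by_contra hcon
        exact e3 (hcov w e1 (by omega))
      have e5 : v + g ≤ ∑ i ∈ range j, a i - w := by
        by_contra hcon
        apply e3
        apply P_symm' (x := ∑ i ∈ range j, a i - w) (by omega)
        exact hcov _ (by omega) (by omega)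
      exact ⟨by omega, by omega, e3⟩
    | succ k ih =>
      intro j hj hqj
      obtain ⟨W, h1, h2, h3⟩ := ih (j + 1) (by omega) (by omega)
      by_cases hjw : j = w0
      · subst hjw
        have hins : insert j (range (j + 1)) = insert j (range j) := by
          rw [range_add_one, insert_idem]
        rw [hins] at h3
        exact ⟨W, h1, h2, h3⟩
      · have hins : insert w0 (range (j + 1)) = insert j (insert w0 (range j)) := by
          rw [range_add_one, insert_comm]
        rw [hins] at h3
        have hjn : j ∉ insert w0 (range j) := by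
          rw [mem_insert, mem_range]
          omega
        have hsub : insert w0 (range (q + 1)) ⊆ insert w0 (range j) :=
          insert_subset_insert _ (range_subset_range.mpr hqj)
        have hge := sum_le_sum_of_subset (f := a) hsub
        have haj := hup j (by omega)
        obtain ⟨W', e1, e2, e3⟩ := stepdown (lo := v + N) (h := v + g) hjn (by omega)
          (fun y hy1 hy2 => P_mono ((range_subset_range.mpr hqj).trans (subset_insert _ _))
            (hcov1 y hy1 hy2)) (by omega) (by omega) h1 h3
        exact ⟨W', e1, by omega, e3⟩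
  obtain ⟨W, h1, h2, h3⟩ := hdown (K - (q + 1)) (q + 1) (by omega) le_rfl
  have hlo : ∀ w ∈ W, v + g ≤ w := by
    intro w hw
    obtain ⟨e1, e2, e3⟩ := h3 w hw
    by_contra hcon
    exact e3 (P_mono (subset_insert _ _) (hcov1 w e1 (by omega)))
  have hhi : ∀ w ∈ W, w + (v + g) ≤ ∑ i ∈ insert w0 (range (q + 1)), a i := by
    intro w hw
    obtain ⟨e1, e2, e3⟩ := h3 w hw
    by_contra hcon
    apply e3
    apply P_symm' (x := ∑ i ∈ insert w0 (range (q + 1)), a i - w) (by omega)
    exact P_mono (subset_insert _ _) (hcov1 _ (by omega) (by omega))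
  have hne : W.Nonempty := card_pos.mp (by omega)
  obtain ⟨f1, f2⟩ := conn_union (c := v) (δ := a w0 - v) h1 hne (by omega) (by omega)
    (fun w hw => by have := hlo w hw; omega)
  refine ⟨_, f1, by omega, ?_⟩
  intro u hu
  rw [mem_union, mem_image, mem_image] at hu
  have hqw : q ∉ insert w0 (range q) := by
    rw [mem_insert, mem_range]; omega
  have hw0q : w0 ∉ range (q + 1) := by
    rw [mem_range]; omega
  rcases hu with ⟨w, hw, rfl⟩ | ⟨w, hw, rfl⟩
  · obtain ⟨e1, e2, e3⟩ := h3 w hw
    have e4 := hlo w hw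
    have e5 := hhi w hw
    refine ⟨by omega, by omega, fun h => e3 ?_⟩
    apply P_insert_of' hw0q (by omega)
    apply P_mono (range_subset_range.mpr (Nat.le_succ q))
    rwa [show v + (a w0 - v) = a w0 by omega] at h
  · obtain ⟨e1, e2, e3⟩ := h3 w hw
    have e4 := hlo w hw
    have e5 := hhi w hw
    refine ⟨by omega, by omega, fun h => e3 ?_⟩
    apply P_mono (subset_insert _ _)
    rw [range_add_one]
    exact P_insert_of' notMem_range_self (by omega) h

end Pool.Agent.H284_cs
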