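import Mathlib

namespace Pool.Agent.H284_cs

/-- The sequence `a`, with the terms whose index lies in `F` removed, is complete: every
sufficiently large integer is a sum of terms of `a` with distinct indices outside `F`. -/
def CompleteWithout (a : ℕ → ℕ) (F : Finset ℕ) : Prop :=
  ∃ N : ℕ, ∀ x : ℕ, N ≤ x → ∃ G : Finset ℕ, Disjoint G F ∧ ∑ i ∈ G, a i = x

/-- The pair `(m, n)` is realisable: some non-decreasing sequence of positive integers is
complete, stays complete after the removal of any `m` terms, and is not complete after the
removal of any `n` terms. -/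
def Realisable (m n : ℕ) : Prop :=
  ∃ a : ℕ → ℕ, Monotone a ∧ (∀ i, 0 < a i) ∧ CompleteWithout a ∅ ∧
    (∀ F : Finset ℕ, F.card = m → CompleteWithout a F) ∧
    (∀ F : Finset ℕ, F.card = n → ¬ CompleteWithout a F)

end Pool.Agent.H284_cs
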