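import Mathlib
import Pool.Agent.H284_cs.Defect

namespace Pool.Agent.H284_cs

open Finset

variable {a : ℕ → ℕ} {N : ℕ}

/-- Infinitely many initial segments are full. -/
theorem lemmaF (ha : Monotone a) (hunb : ∀ B, ∃ i, B ≤ a i)
    (hN : ∀ x, N ≤ x → ∃ G : Finset ℕ, ∑ i ∈ G, a i = x) (hNpos : 0 < N) (K0 : ℕ) :
    ∃ K, K0 ≤ K ∧ ∀ y, N ≤ y → y + N ≤ ∑ i ∈ range K, a i → P a (range K) y := by
  by_contra hcon
  push Not at hcon
  obtain ⟨i0, hi0⟩ := hunb (6 * N)
  set K1 := max K0 i0 with hK1
  have hbigterm : ∀ K, K1 ≤ K → 6 * N ≤ a K := fun K hK =>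
    hi0.trans (ha ((le_max_right _ _).trans hK))
  have hmid : ∀ K, K1 ≤ K → ∃ y, N ≤ y ∧ y + N ≤ ∑ i ∈ range K, a i ∧ ¬ P a (range K) y :=
    fun K hK => hcon K ((le_max_left _ _).trans hK)
  have htwo : ∀ K, K1 ≤ K → 2 * gf a N (range K) ≤ ∑ i ∈ range K, a i := fun K hK =>
    (two_gf (hmid K hK)).1
  have hgK : ∀ K, a K ≤ gf a N (range K) := fun K => gf_ge ha hN K
  -- going down along initial segments
  have hdown : ∀ m K K', K1 ≤ K → K ≤ K' → big a (2 * N) N (range K') m →
      big a (2 * N) N (range K) m := by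
    intro m K K' hK hKK'
    induction K', hKK' using Nat.le_induction with
    | base => exact fun h => h
    | succ j hj ih =>
      intro h
      apply ih
      have e1 := hbigterm j (by omega)
      have e2 := htwo j (by omega)
      have e3 := hgK j
      exact big_down ha hN hNpos (by omega) (by omega) h
  have hone : ∀ K, K1 ≤ K → big a (2 * N) N (range K) 1 := by
    intro K hK
    obtain ⟨y, h1, h2, h3⟩ := hmid K hK
    refine ⟨{y}, ?_, by simp, ?_⟩
    · intro w hw hw'
      obtain ⟨w', hw1, hw2⟩ := hw'
      rw [mem_singleton] at hw hw1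
      omega
    · intro w hw
      rw [mem_singleton] at hw
      subst hw
      exact ⟨h1, h2, h3⟩
  by_cases hinf : ∀ K, ∃ q, K ≤ q ∧
      ∃ z, N ≤ z ∧ z < gf a N (range q) + a q ∧ ¬ P a (range (q + 1)) z
  · -- infinitely many defects
    have hall : ∀ m, 1 ≤ m → ∀ K, K1 ≤ K → big a (2 * N) N (range K) m := by
      intro m hm
      induction m, hm using Nat.le_induction with
      | base => exact hone
      | succ m hm ih =>
        intro K hK
        obtain ⟨q, hq, hdef⟩ := hinf K
        have e1 := hbigterm q (by omega)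
        have e3 := hgK q
        obtain ⟨K', hK', h⟩ := defective ha hunb hN hNpos (q := q) (by omega) (by omega)
          (htwo q (by omega)) hdef
        exact hdown _ K q hK hq (h m hm (ih K' (by omega)))
    obtain ⟨W, h1, h2, h3⟩ := hall (∑ i ∈ range K1, a i + 2) (by omega) K1 le_rfl
    have hsub : W ⊆ range (∑ i ∈ range K1, a i + 1) := by
      intro w hw
      have := (h3 w hw).2.1
      rw [mem_range]
      omega
    have := card_le_card hsub
    rw [card_range] at this
    omega
  · push Not at hinf
    obtain ⟨K2, hK2⟩ := hinf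
    set K3 := max K1 K2 with hK3
    have hgrow : ∀ K, K3 ≤ K → gf a N (range K) + a K ≤ gf a N (range (K + 1)) := by
      intro K hK
      apply le_gf
      intro y h1 h2
      exact hK2 K ((le_max_right _ _).trans hK) y h1 h2
    have hdiff : ∀ K, K3 ≤ K → ∑ i ∈ range K, a i + gf a N (range K3) ≤
        ∑ i ∈ range K3, a i + gf a N (range K) := by
      intro K hK
      induction K, hK using Nat.le_induction with
      | base => exact le_rfl
      | succ j hj ih =>
        have e1 := hgrow j hj
        rw [sum_range_succ]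
        omega
    obtain ⟨i1, hi1⟩ := hunb (∑ i ∈ range K3, a i + 1)
    set K4 := max K3 i1 with hK4
    have e1 := hdiff K4 (le_max_left _ _)
    have e2 := htwo K4 ((le_max_left _ _).trans (le_max_left _ _))
    have e3 := hgK K4
    have e4 : a i1 ≤ a K4 := ha (le_max_right _ _)
    omega

end Pool.Agent.H284_cs
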