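import Mathlib
import Pool.Agent.H284_cs.Defs
import Pool.Agent.H284_cs.Full

namespace Pool.Agent.H284_cs

open Finset

lemma CompleteWithout.mono {a : ℕ → ℕ} {F F' : Finset ℕ} (h : F' ⊆ F)
    (hF : CompleteWithout a F) : CompleteWithout a F' := by
  obtain ⟨N, hN⟩ := hF
  refine ⟨N, fun x hx => ?_⟩
  obtain ⟨G, h1, h2⟩ := hN x hx
  exact ⟨G, h1.mono_right h, h2⟩

/-- The key step: one more index can be removed. -/
lemma step {a : ℕ → ℕ} (ha : Monotone a) (hunb : ∀ B, ∃ i, B ≤ a i)
    (hpair : ∀ i j : ℕ, i ≠ j → CompleteWithout a {i, j}) {F : Finset ℕ}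
    (hF : CompleteWithout a F) : ∃ i, i ∉ F ∧ CompleteWithout a (insert i F) := by
  classical
  obtain ⟨N0, hN0⟩ := hF
  set N := N0 + 1 with hNdef
  have hinf : {i | i ∉ F}.Infinite := by
    have h1 : {i | i ∉ F} = (F : Set ℕ)ᶜ := by
      ext i; simp
    rw [h1]
    exact F.finite_toSet.infinite_compl
  set e : ℕ → ℕ := Nat.nth (fun i => i ∉ F) with he
  have hemono : StrictMono e := Nat.nth_strictMono hinf
  have heF : ∀ i, e i ∉ F := fun i => Nat.nth_mem_of_infinite hinf i
  have hesurj : ∀ j, j ∉ F → ∃ i, e i = j := by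
    intro j hj
    have h1 : j ∈ Set.range (Nat.nth (fun i => i ∉ F)) := by
      rw [Nat.range_nth_of_infinite hinf]
      exact hj
    exact h1
  set b : ℕ → ℕ := fun i => a (e i) with hb
  have hbmono : Monotone b := ha.comp hemono.monotone
  have hbunb : ∀ B, ∃ i, B ≤ b i := by
    intro B
    obtain ⟨i, hi⟩ := hunb B
    exact ⟨i, hi.trans (ha (hemono.le_apply))⟩
  have hbN : ∀ x, N ≤ x → ∃ G : Finset ℕ, ∑ i ∈ G, b i = x := by
    intro x hx
    obtain ⟨G, h1, h2⟩ := hN0 x (by omega)
    refine ⟨G.preimage e hemono.injective.injOn, ?_⟩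
    rw [← h2]
    have := sum_preimage e G hemono.injective.injOn a (fun x hx hx' => by
      exfalso
      apply hx'
      obtain ⟨i, hi⟩ := hesurj x (fun hxF => disjoint_left.mp h1 hx hxF)
      exact ⟨i, hi⟩)
    exact this
  -- a full initial segment containing a large term
  set R := ∑ i ∈ F, a i with hR
  obtain ⟨i0, hi0⟩ := hbunb (R + 2 * N)
  obtain ⟨K, hK, hfull⟩ := lemmaF hbmono hbunb hbN (by omega) (i0 + 1)
  set Λ' : Finset ℕ := (range K).image e with hΛ'
  have hΛ'F : Disjoint Λ' F := by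
    rw [disjoint_left]
    intro j hj
    rw [hΛ', mem_image] at hj
    obtain ⟨i, _, rfl⟩ := hj
    exact heF i
  have hsum' : ∑ i ∈ Λ', a i = ∑ i ∈ range K, b i := by
    rw [hΛ', sum_image (fun x _ y _ h => hemono.injective h)]
  have hfull' : ∀ y, N ≤ y → y + N ≤ ∑ i ∈ Λ', a i → P a Λ' y := by
    intro y h1 h2
    rw [hsum'] at h2
    obtain ⟨G, hG, hs⟩ := hfull y h1 h2
    refine ⟨G.image e, image_subset_image hG, ?_⟩
    rw [sum_image (fun x _ y _ h => hemono.injective h)]
    exact hs
  set i1 := e i0 with hi1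
  have hi1mem : i1 ∈ Λ' := mem_image.mpr ⟨i0, mem_range.mpr (by omega), rfl⟩
  have hi1big : R + 2 * N ≤ a i1 := hi0
  set Λ := Λ' ∪ F with hΛ
  obtain ⟨i, hi⟩ := Infinite.exists_notMem_finset Λ
  have hiF : i ∉ F := fun h => hi (mem_union_right _ h)
  have hiΛ' : i ∉ Λ' := fun h => hi (mem_union_left _ h)
  have hne : i1 ≠ i := by
    rintro h
    exact hiΛ' (h ▸ hi1mem)
  refine ⟨i, hiF, ?_⟩
  obtain ⟨N1, hN1⟩ := hpair i1 i hne
  refine ⟨N1 + N, fun x hx => ?_⟩
  obtain ⟨J, hJ, hJs⟩ := hN1 (x - N) (by omega)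
  have hJ1 : i1 ∉ J := fun h => disjoint_left.mp hJ h (mem_insert_self _ _)
  have hJi : i ∉ J := fun h => disjoint_left.mp hJ h (mem_insert_of_mem (mem_singleton_self _))
  have hsplit := sum_filter_add_sum_filter_not J (fun j => j ∈ Λ) a
  have hlow : ∑ j ∈ J with j ∈ Λ, a j + a i1 ≤ ∑ j ∈ Λ, a j := by
    have h1 : insert i1 (J.filter (fun j => j ∈ Λ)) ⊆ Λ := by
      intro j hj
      rw [mem_insert, mem_filter] at hj
      rcases hj with rfl | hj
      · exact mem_union_left _ hi1mem
      · exact hj.2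
    have h2 := sum_le_sum_of_subset (f := a) h1
    rw [sum_insert (fun h => hJ1 (mem_filter.mp h).1)] at h2
    omega
  have hΛsum : ∑ j ∈ Λ, a j = ∑ j ∈ Λ', a j + R := sum_union hΛ'F
  obtain ⟨G, hG, hGs⟩ := hfull' (∑ j ∈ J with j ∈ Λ, a j + N) (by omega) (by omega)
  refine ⟨G ∪ J.filter (fun j => ¬ j ∈ Λ), ?_, ?_⟩
  · rw [disjoint_left]
    intro j hj hj'
    rw [mem_union, mem_filter] at hj
    rw [mem_insert] at hj'
    rcases hj with hj | hj
    · have h1 := hG hj
      rcases hj' with rfl | hj'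
      · exact hiΛ' h1
      · exact disjoint_left.mp hΛ'F h1 hj'
    · rcases hj' with rfl | hj'
      · exact hJi hj.1
      · exact hj.2 (mem_union_right _ hj')
  · rw [sum_union]
    · omega
    · rw [disjoint_left]
      intro j hj hj'
      rw [mem_filter] at hj'
      exact hj'.2 (mem_union_left _ (hG hj))

/-- If all pairs can be removed, then some `n` terms can be removed, for every `n`. -/
theorem exists_removal {a : ℕ → ℕ} (ha : Monotone a)
    (hpair : ∀ i j : ℕ, i ≠ j → CompleteWithout a {i, j}) (n : ℕ) :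
    ∃ F : Finset ℕ, F.card = n ∧ CompleteWithout a F := by
  by_cases hunb : ∀ B, ∃ i, B ≤ a i
  · induction n with
    | zero => exact ⟨∅, rfl, (hpair 0 1 (by decide)).mono (empty_subset _)⟩
    | succ n ih =>
      obtain ⟨F, hF, hFc⟩ := ih
      obtain ⟨i, hi, hic⟩ := step ha hunb hpair hFc
      exact ⟨insert i F, by rw [card_insert_of_notMem hi, hF], hic⟩
  · -- the sequence is bounded, hence eventually constant
    push Not at hunb
    obtain ⟨B, hB⟩ := hunb
    obtain ⟨k, hk⟩ : ∃ k, ∀ i, k ≤ i → a i = a k := by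
      obtain ⟨k, hk⟩ : ∃ k, ∀ i, a i ≤ a k := by
        by_contra hcon
        push Not at hcon
        have : ∀ t, ∃ i, t ≤ a i := by
          intro t
          induction t with
          | zero => exact ⟨0, Nat.zero_le _⟩
          | succ t ih =>
            obtain ⟨i, hi⟩ := ih
            obtain ⟨j, hj⟩ := hcon i
            exact ⟨j, by omega⟩
        obtain ⟨i, hi⟩ := this B
        have := hB i
        omega
      exact ⟨k, fun i hi => le_antisymm (hk i) (ha hi)⟩
    obtain ⟨N, hN⟩ := (hpair 0 1 (by decide)).mono (empty_subset _)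
    refine ⟨(range n).image (fun t => k + t), ?_, N, fun x hx => ?_⟩
    · rw [card_image_of_injective _ (fun x y h => by
        have : k + x = k + y := h
        omega), card_range]
    · obtain ⟨G, _, hG⟩ := hN x hx
      have hinj : Function.Injective (fun i => if i < k then i else i + n) := by
        intro x y h
        simp only at h
        split_ifs at h <;> omega
      refine ⟨G.image (fun i => if i < k then i else i + n), ?_, ?_⟩
      · rw [disjoint_left]
        intro j hj hj'
        rw [mem_image] at hj hj'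
        obtain ⟨i, hi, rfl⟩ := hj
        obtain ⟨t, ht, ht'⟩ := hj'
        rw [mem_range] at ht
        split_ifs at ht' <;> omega
      · rw [sum_image (fun x _ y _ h => hinj h), ← hG]
        apply sum_congr rfl
        intro i _
        by_cases hi : i < k
        · rw [if_pos hi]
        · rw [if_neg hi, hk (i + n) (by omega), hk i (by omega)]

theorem not_realisable {m n : ℕ} (hm : 2 ≤ m) : ¬ Realisable m n := by
  rintro ⟨a, ha, _, _, h1, h2⟩
  obtain ⟨F, hF, hFc⟩ := exists_removal ha (fun i j hij => by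
    obtain ⟨F, hF, hFm⟩ := Infinite.exists_superset_card_eq ({i, j} : Finset ℕ) m
      (by rw [card_pair hij]; exact hm)
    exact (h1 F hFm).mono hF) n
  exact h2 F hF hFc

end Pool.Agent.H284_cs
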