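import Mathlib
import Pool.Agent.H284_cs.Main

namespace Pool.Agent.H284_cs

open Finset

lemma sum_two_pow (K : ℕ) : ∑ i ∈ range K, 2 ^ i + 1 = 2 ^ K := by
  induction K with
  | zero => simp
  | succ K ih => rw [sum_range_succ, pow_succ]; omega

lemma two_pow_cover (K : ℕ) : ∀ x, x < 2 ^ K → P (fun i => 2 ^ i) (range K) x := by
  induction K with
  | zero =>
    intro x hx
    have : x = 0 := by simpa using hx
    subst this
    exact ⟨∅, empty_subset _, rfl⟩
  | succ K ih =>
    intro x hx
    by_cases h : x < 2 ^ K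
    · exact P_mono (range_subset_range.mpr (Nat.le_succ K)) (ih x h)
    · rw [range_add_one]
      apply P_insert_of' notMem_range_self
      · omega
      · apply ih
        rw [pow_succ] at hx
        omega

theorem realisable_zero {n : ℕ} (hn : 1 ≤ n) : Realisable 0 n := by
  have hc : CompleteWithout (fun i => 2 ^ i) ∅ := by
    refine ⟨0, fun x _ => ?_⟩
    obtain ⟨G, _, hs⟩ := two_pow_cover x x Nat.lt_two_pow_self
    exact ⟨G, disjoint_empty_right _, hs⟩
  refine ⟨fun i => 2 ^ i, fun i j h => Nat.pow_le_pow_right (by norm_num) h,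
    fun i => by positivity, hc, ?_, ?_⟩
  · intro F hF
    rw [card_eq_zero] at hF
    rw [hF]
    exact hc
  · rintro F hF ⟨N, hN⟩
    obtain ⟨i, hi⟩ : F.Nonempty := card_pos.mp (by omega)
    obtain ⟨k, hk⟩ : ∃ k, k = N + i + 1 := ⟨_, rfl⟩
    have h1 : k < 2 ^ k := Nat.lt_two_pow_self
    obtain ⟨G, hG, hs0⟩ := hN (2 ^ k - 1) (by omega)
    have hs : ∑ i ∈ G, 2 ^ i = 2 ^ k - 1 := hs0
    have h2 : insert i G ⊆ range k := by
      intro j hj
      rw [mem_insert] at hj
      rw [mem_range]
      rcases hj with rfl | hj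
      · omega
      · by_contra hcon
        have e1 : 2 ^ k ≤ 2 ^ j := Nat.pow_le_pow_right (by norm_num) (by omega)
        have e2 : 2 ^ j ≤ ∑ i ∈ G, 2 ^ i :=
          single_le_sum (f := fun i => 2 ^ i) (fun _ _ => Nat.zero_le _) hj
        omega
    have hiG : i ∉ G := fun h => disjoint_left.mp hG h hi
    have h3 := sum_le_sum_of_subset (f := fun i => 2 ^ i) h2
    rw [sum_insert hiG] at h3
    have h4 := sum_two_pow k
    have h5 : 0 < 2 ^ i := by positivity
    omega

lemma sum_fib (K : ℕ) : ∑ i ∈ range K, Nat.fib (i + 1) + 1 = Nat.fib (K + 2) := by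
  induction K with
  | zero => simp
  | succ K ih =>
    rw [sum_range_succ]
    have : Nat.fib (K + 1 + 2) = Nat.fib (K + 1) + Nat.fib (K + 2) := Nat.fib_add_two
    omega

lemma fib_cover (i K : ℕ) : ∀ x, x + (if i < K then Nat.fib (i + 1) else 0) + 1 ≤ Nat.fib (K + 2) →
    P (fun i => Nat.fib (i + 1)) ((range K).erase i) x := by
  induction K with
  | zero =>
    intro x hx
    have : Nat.fib (0 + 2) = 1 := rfl
    have : x = 0 := by omega
    subst this
    exact ⟨∅, empty_subset _, rfl⟩
  | succ K ih =>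
    intro x hx
    have hrec : Nat.fib (K + 1 + 2) = Nat.fib (K + 1) + Nat.fib (K + 2) := Nat.fib_add_two
    have hrec2 : Nat.fib (K + 2) = Nat.fib K + Nat.fib (K + 1) := Nat.fib_add_two
    by_cases hKi : K = i
    · subst hKi
      rw [if_pos (Nat.lt_succ_self K)] at hx
      have h1 : (range (K + 1)).erase K = (range K).erase K := by
        ext j
        simp only [mem_erase, mem_range]
        omega
      rw [h1]
      apply ih
      rw [if_neg (lt_irrefl K)]
      omega
    · have h1 : (range (K + 1)).erase i = insert K ((range K).erase i) := by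
        ext j
        simp only [mem_erase, mem_range, mem_insert]
        omega
      have h2 : (if i < K + 1 then Nat.fib (i + 1) else 0) = if i < K then Nat.fib (i + 1) else 0 := by
        by_cases h : i < K
        · rw [if_pos h, if_pos (by omega)]
        · rw [if_neg h, if_neg (by omega)]
      rw [h2] at hx
      have h3 : (if i < K then Nat.fib (i + 1) else 0) ≤ Nat.fib K := by
        by_cases h : i < K
        · rw [if_pos h]
          exact Nat.fib_mono h
        · rw [if_neg h]
          exact Nat.zero_le _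
      rw [h1]
      by_cases h4 : x + (if i < K then Nat.fib (i + 1) else 0) + 1 ≤ Nat.fib (K + 2)
      · exact P_mono (subset_insert _ _) (ih x h4)
      · apply P_insert_of' (by simp)
        · omega
        · apply ih
          omega

/-- `fib (j + 2 + 2 t) - 1` is not a sum of Fibonacci numbers avoiding two given ones. -/
lemma fib_missing {F : Finset ℕ} {i j : ℕ} (hij : i < j) (hi : i ∈ F) (hj : j ∈ F) (t : ℕ) :
    ∀ G : Finset ℕ, Disjoint G F → ∑ l ∈ G, Nat.fib (l + 1) + 1 ≠ Nat.fib (j + 2 + 2 * t) := by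
  have hfi : 0 < Nat.fib (i + 1) := Nat.fib_pos.mpr (Nat.succ_pos i)
  have key : ∀ k : ℕ, ∀ G : Finset ℕ, i < k → Disjoint G F → G ⊆ range k →
      ∑ l ∈ G, Nat.fib (l + 1) + 1 < Nat.fib (k + 2) := by
    intro k G hk hG hGk
    have h1 : insert i G ⊆ range k := by
      intro l hl
      rw [mem_insert] at hl
      rcases hl with rfl | hl
      · exact mem_range.mpr hk
      · exact hGk hl
    have h2 := sum_le_sum_of_subset (f := fun l => Nat.fib (l + 1)) h1
    rw [sum_insert (fun h => disjoint_left.mp hG h hi)] at h2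
    have := sum_fib k
    omega
  have hbound : ∀ k : ℕ, ∀ G : Finset ℕ, ∑ l ∈ G, Nat.fib (l + 1) + 1 = Nat.fib (k + 2) →
      G ⊆ range (k + 1) := by
    intro k G hs l hl
    rw [mem_range]
    by_contra hcon
    have e1 : Nat.fib (k + 2) ≤ Nat.fib (l + 1) := Nat.fib_mono (by omega)
    have e2 : Nat.fib (l + 1) ≤ ∑ l ∈ G, Nat.fib (l + 1) :=
      single_le_sum (f := fun l => Nat.fib (l + 1)) (fun _ _ => Nat.zero_le _) hl
    omega
  induction t with
  | zero =>
    intro G hG hs
    rw [mul_zero, add_zero] at hs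
    have h1 := hbound j G hs
    have h2 : G ⊆ range j := by
      intro l hl
      have h3 := mem_range.mp (h1 hl)
      have h4 : l ≠ j := by
        rintro rfl
        exact disjoint_left.mp hG hl hj
      rw [mem_range]
      omega
    have := key j G hij hG h2
    omega
  | succ t ih =>
    intro G hG hs
    set k := j + 2 + 2 * t with hk
    have hk2 : j + 2 + 2 * (t + 1) = k + 2 := by omega
    rw [hk2] at hs
    have hrec : Nat.fib (k + 2) = Nat.fib k + Nat.fib (k + 1) := Nat.fib_add_two
    have h1 := hbound k G hs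
    by_cases hkG : k ∈ G
    · have h2 := add_sum_erase G (fun l => Nat.fib (l + 1)) hkG
      apply ih (G.erase k) (disjoint_of_subset_left (erase_subset _ _) hG)
      omega
    · have h2 : G ⊆ range k := by
        intro l hl
        have h3 := mem_range.mp (h1 hl)
        have h4 : l ≠ k := by
          rintro rfl
          exact hkG hl
        rw [mem_range]
        omega
      have := key k G (by omega) hG h2
      omega

theorem realisable_one {n : ℕ} (hn : 2 ≤ n) : Realisable 1 n := by
  have hc : ∀ i, CompleteWithout (fun i => Nat.fib (i + 1)) {i} := by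
    intro i
    refine ⟨0, fun x _ => ?_⟩
    set K := x + Nat.fib (i + 1) + 5 with hK
    have h1 : K + 2 ≤ Nat.fib (K + 2) := Nat.le_fib_self (by omega)
    obtain ⟨G, hG, hs⟩ := fib_cover i K x (by split_ifs <;> omega)
    refine ⟨G, ?_, hs⟩
    rw [disjoint_singleton_right]
    intro h
    exact (notMem_erase i (range K)) (hG h)
  refine ⟨fun i => Nat.fib (i + 1), fun i j h => Nat.fib_mono (by omega),
    fun i => Nat.fib_pos.mpr (Nat.succ_pos i), (hc 0).mono (empty_subset _), ?_, ?_⟩
  · intro F hF
    obtain ⟨i, rfl⟩ := card_eq_one.mp hF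
    exact hc i
  · rintro F hF ⟨N, hN⟩
    obtain ⟨i, hi, j, hj, hij⟩ : ∃ i ∈ F, ∃ j ∈ F, i < j := by
      obtain ⟨x, hx, y, hy, hxy⟩ := one_lt_card.mp (show 1 < F.card by omega)
      rcases lt_or_gt_of_ne hxy with h | h
      · exact ⟨x, hx, y, hy, h⟩
      · exact ⟨y, hy, x, hx, h⟩
    obtain ⟨k, hk⟩ : ∃ k, k = j + 2 + 2 * (N + 5) := ⟨_, rfl⟩
    have h1 : k ≤ Nat.fib k := Nat.le_fib_self (by omega)
    obtain ⟨G, hG, hs0⟩ := hN (Nat.fib k - 1) (by omega)
    have hs : ∑ l ∈ G, Nat.fib (l + 1) = Nat.fib k - 1 := hs0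
    exact fib_missing hij hi hj (N + 5) G hG (by rw [← hk]; omega)

end Pool.Agent.H284_cs
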